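import Pool.Agent.helper91.SI.Spec2

set_option autoImplicit false

namespace Pool.Agent.helper91.SI

open Pool.Agent.helper20.IG (IsIndepDom IsISet iGraph)

theorem PP (hIAD : IAD_stmt) (hSLD : SLD_stmt) (hSAM : SAM_stmt) (hCFL : CFL_stmt)
    (hCIR : CIR_stmt) : PP_stmt := by
  intro V _ G hT h4 h5 h6 hI4 hP1
  obtain ⟨S, Y, hc, hY, hadj⟩ := hP1
  obtain ⟨R, z, hz, hzR, hRz, hS⟩ := hCIR V G hT h4 h5 h6 S hc
  have hinj := hz.1
  have hza := hz.2
  have n : ∀ i j : ZMod 7, i ≠ j → z i ≠ z j := fun i j h e => h (hinj e)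
  have a01 : G.Adj (z 0) (z 1) := hza 0
  have a12 : G.Adj (z 1) (z 2) := hza 1
  have a23 : G.Adj (z 2) (z 3) := hza 2
  have a34 : G.Adj (z 3) (z 4) := hza 3
  have a45 : G.Adj (z 4) (z 5) := hza 4
  have a56 : G.Adj (z 5) (z 6) := hza 5
  have a60 : G.Adj (z 6) (z 0) := hza 6
  have e0 : (S 0).1 = R ∪ {z 0, z 2, z 4} := hS 0
  have e1 : (S 1).1 = R ∪ {z 5, z 0, z 2} := hS 1
  have e2 : (S 2).1 = R ∪ {z 3, z 5, z 0} := hS 2
  have e6 : (S 6).1 = R ∪ {z 2, z 4, z 6} := hS 6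
  have hmem : ∀ k, z k ∈ (S 0).1 ↔ (k = 0 ∨ k = 2 ∨ k = 4) := by
    intro k; rw [e0]; simp [hzR k, hinj.eq_iff]
  have m0 : z 0 ∈ (S 0).1 := (hmem 0).2 (by decide)
  have m2 : z 2 ∈ (S 0).1 := (hmem 2).2 (by decide)
  have m4 : z 4 ∈ (S 0).1 := (hmem 4).2 (by decide)
  have k5 : z 5 ∉ (S 0).1 := fun h => absurd ((hmem 5).1 h) (by decide)
  have k6 : z 6 ∉ (S 0).1 := fun h => absurd ((hmem 6).1 h) (by decide)
  have q1 : insert (z 5) ((S 0).1.erase (z 4)) = (S 1).1 := by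
    rw [e0, e1]; ext x
    simp only [Finset.mem_insert, Finset.mem_erase, Finset.mem_union, Finset.mem_singleton]
    constructor
    · rintro (h | ⟨h, h' | h' | h' | h'⟩) <;> tauto
    · rintro (h | h | h | h)
      · exact Or.inr ⟨fun e => hzR 4 (e ▸ h), Or.inl h⟩
      · exact Or.inl h
      · subst h; exact Or.inr ⟨n _ _ (by decide), by simp⟩
      · subst h; exact Or.inr ⟨n _ _ (by decide), by simp⟩
  have q6 : insert (z 6) ((S 0).1.erase (z 0)) = (S 6).1 := by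
    rw [e0, e6]; ext x
    simp only [Finset.mem_insert, Finset.mem_erase, Finset.mem_union, Finset.mem_singleton]
    constructor
    · rintro (h | ⟨h, h' | h' | h' | h'⟩) <;> tauto
    · rintro (h | h | h | h)
      · exact Or.inr ⟨fun e => hzR 0 (e ▸ h), Or.inl h⟩
      · subst h; exact Or.inr ⟨n _ _ (by decide), by simp⟩
      · subst h; exact Or.inr ⟨n _ _ (by decide), by simp⟩
      · exact Or.inl h
  have s45 : Slide G (S 0).1 (z 4) (z 5) := ⟨(S 0).2, m4, k5, a45, by rw [q1]; exact (S 1).2⟩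
  have s06 : Slide G (S 0).1 (z 0) (z 6) := ⟨(S 0).2, m0, k6, a60.symm, by rw [q6]; exact (S 6).2⟩
  obtain ⟨r, r', hsl, hYe⟩ := (hIAD V G (S 0) Y).1 hadj
  have rne4 : r ≠ z 4 := by
    intro e
    rw [e] at hsl hYe
    have := hSAM V G _ _ _ _ hT hsl s45
    rw [this] at hYe
    exact hY 1 (Subtype.ext (hYe.trans q1))
  have rne0 : r ≠ z 0 := by
    intro e
    rw [e] at hsl hYe
    have := hSAM V G _ _ _ _ hT hsl s06
    rw [this] at hYe
    exact hY 6 (Subtype.ext (hYe.trans q6))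
  have hA := (hSLD V G _ _ _ hT hsl).1
  have hB := (hSLD V G _ _ _ hT s45).1
  have hC := (hSLD V G _ _ _ hT s06).1
  have ind := (S 0).2.1.1
  have rS := hsl.2.1
  have r'S := hsl.2.2.1
  have rr' : G.Adj r r' := hsl.2.2.2.1
  have ne5 : r' ≠ z 5 := fun e => rne4 (hA _ m4 (by rw [e]; exact a45)).symm
  have ne6 : r' ≠ z 6 := fun e => rne0 (hA _ m0 (by rw [e]; exact a60.symm)).symm
  have rr : r ≠ r' := fun e => r'S (e ▸ rS)
  have r5 : r ≠ z 5 := fun e => k5 (e ▸ rS)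
  have r6 : r ≠ z 6 := fun e => k6 (e ▸ rS)
  have r'0 : r' ≠ z 0 := fun e => r'S (e ▸ m0)
  have r'4 : r' ≠ z 4 := fun e => r'S (e ▸ m4)
  have z56 : z 5 ≠ z 6 := n _ _ (by decide)
  have z50 : z 5 ≠ z 0 := n _ _ (by decide)
  have z60 : z 6 ≠ z 0 := n _ _ (by decide)
  have z64 : z 6 ≠ z 4 := n _ _ (by decide)
  have z54 : z 5 ≠ z 4 := n _ _ (by decide)
  have z40 : z 4 ≠ z 0 := n _ _ (by decide)
  rcases hCFL V G _ _ _ _ _ hT hI4 hsl s45 rne4 with c5 | ⟨w4, b1, b2, b3⟩ <;>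
    rcases hCFL V G _ _ _ _ _ hT hI4 hsl s06 rne0 with c6 | ⟨w0, d1, d2, d3⟩
  · exact (hT _ _ _ c5 a56 c6).elim
  · exfalso
    have w0S : w0 ∉ (S 0).1 := fun h => ind _ rS _ h d1
    have w0r : r ≠ w0 := fun e => w0S (e ▸ rS)
    have w0r' : r' ≠ w0 := fun e => rne0 (hA _ m0 (by rw [e]; exact d2)).symm
    have w05 : z 5 ≠ w0 := fun e => rne4 (hB _ rS (by rw [e]; exact d1))
    have w06 : z 6 ≠ w0 := fun e => rne0 (hC _ rS (by rw [e]; exact d1))
    have w00 : z 0 ≠ w0 := fun e => w0S (e ▸ m0)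
    refine h6 r r' (z 5) (z 6) (z 0) w0 ?_ rr' c5 a56 a60 d2 d1.symm
    simp only [List.nodup_cons, List.mem_cons, List.not_mem_nil, or_false, not_or, List.nodup_nil,
      not_false_eq_true, and_true]
    refine ⟨⟨?_, ?_, ?_, ?_, ?_⟩, ⟨?_, ?_, ?_, ?_⟩, ⟨?_, ?_, ?_⟩, ⟨?_, ?_⟩, ?_⟩ <;> assumption
  · exfalso
    have w4S : w4 ∉ (S 0).1 := fun h => ind _ rS _ h b1
    have w4r : r ≠ w4 := fun e => w4S (e ▸ rS)
    have w4r' : r' ≠ w4 := fun e => rne4 (hA _ m4 (by rw [e]; exact b2)).symm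
    have w45 : z 5 ≠ w4 := fun e => rne4 (hB _ rS (by rw [e]; exact b1))
    have w46 : z 6 ≠ w4 := fun e => rne0 (hC _ rS (by rw [e]; exact b1))
    have w44 : z 4 ≠ w4 := fun e => w4S (e ▸ m4)
    refine h6 r r' (z 6) (z 5) (z 4) w4 ?_ rr' c6 a56.symm a45.symm b2 b1.symm
    have z65 := z56.symm
    simp only [List.nodup_cons, List.mem_cons, List.not_mem_nil, or_false, not_or, List.nodup_nil,
      not_false_eq_true, and_true]
    refine ⟨⟨?_, ?_, ?_, ?_, ?_⟩, ⟨?_, ?_, ?_, ?_⟩, ⟨?_, ?_, ?_⟩, ⟨?_, ?_⟩, ?_⟩ <;> assumption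
  · have w0S : w0 ∉ (S 0).1 := fun h => ind _ rS _ h d1
    have w4S : w4 ∉ (S 0).1 := fun h => ind _ rS _ h b1
    have w05 : z 5 ≠ w0 := fun e => rne4 (hB _ rS (by rw [e]; exact d1))
    have w06 : z 6 ≠ w0 := fun e => rne0 (hC _ rS (by rw [e]; exact d1))
    have w45 : z 5 ≠ w4 := fun e => rne4 (hB _ rS (by rw [e]; exact b1))
    have w46 : z 6 ≠ w4 := fun e => rne0 (hC _ rS (by rw [e]; exact b1))
    have w00 : z 0 ≠ w0 := fun e => w0S (e ▸ m0)
    have w40 : z 0 ≠ w4 := fun e => w4S (e ▸ m0)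
    have w04 : z 4 ≠ w0 := fun e => w0S (e ▸ m4)
    have w44 : z 4 ≠ w4 := fun e => w4S (e ▸ m4)
    have w0r : w0 ≠ r := fun e => w0S (e ▸ rS)
    have w4r : r ≠ w4 := fun e => w4S (e ▸ rS)
    have w0w4 : w0 ≠ w4 := by
      intro e
      rcases d3 _ m4 (by rw [e]; exact b2) with h | h
      · exact rne4 h.symm
      · exact z40 h
    have rne2 : r ≠ z 2 := by
      intro e
      have hA2 : ∀ t ∈ (S 0).1, G.Adj t r' → t = z 2 := fun t ht h => (hA t ht h).trans e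
      have hr2 : G.Adj (z 2) r' := e ▸ rr'
      have hk : ∀ k, r' ≠ z k := by
        intro k hk
        have hk' : ∀ k : ZMod 7, k = 0 ∨ k = 1 ∨ k = 2 ∨ k = 3 ∨ k = 4 ∨ k = 5 ∨ k = 6 := by
          decide
        rcases hk' k with rfl | rfl | rfl | rfl | rfl | rfl | rfl
        · exact r'S (hk ▸ m0)
        · exact n 0 2 (by decide) (hA2 _ m0 (by rw [hk]; exact a01))
        · exact r'S (hk ▸ m2)
        · exact n 4 2 (by decide) (hA2 _ m4 (by rw [hk]; exact a34.symm))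
        · exact r'S (hk ▸ m4)
        · exact ne5 hk
        · exact ne6 hk
      have hr'R : r' ∉ R := fun h => r'S (by rw [e0]; exact Finset.mem_union_left _ h)
      have hr'2 : r' ∉ (S 2).1 := by
        rw [e2]; simp [hr'R, hk]
      obtain ⟨u, hu, hur⟩ := (S 2).2.1.2 r' hr'2
      rw [e2] at hu
      simp only [Finset.mem_union, Finset.mem_insert, Finset.mem_singleton] at hu
      rcases hu with hu | rfl | rfl | rfl
      · have := hA2 u (by rw [e0]; exact Finset.mem_union_left _ hu) hur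
        exact hzR 2 (this ▸ hu)
      · exact hT _ _ _ a23 hur hr2
      · refine h5 r' (z 2) (z 3) (z 4) (z 5) ?_ hr2.symm a23 a34 a45 hur
        simp only [List.nodup_cons, List.mem_cons, List.not_mem_nil, or_false, not_or,
          List.nodup_nil, not_false_eq_true, and_true]
        exact ⟨⟨hk _, hk _, hk _, hk _⟩, ⟨n _ _ (by decide), n _ _ (by decide), n _ _ (by decide)⟩,
          ⟨n _ _ (by decide), n _ _ (by decide)⟩, n _ _ (by decide)⟩
      · exact n 0 2 (by decide) (hA2 _ m0 hur)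
    have z45 := z54.symm
    have z46 := z64.symm
    have z0r := rne0.symm
    have z4r := rne4.symm
    have z5r := r5.symm
    have z6r := r6.symm
    refine ⟨fun k => z (k + 4), (![z 4, z 5, z 6, z 0, w0, r, w4] : Fin 7 → V), ⟨?_, ?_⟩, ⟨?_, ?_⟩,
      rfl, rfl, rfl, rfl, ?_⟩
    · intro i j h
      exact add_right_cancel (hinj h)
    · intro k
      have := hza (k + 4)
      rwa [show k + 4 + 1 = k + 1 + 4 by ring] at this
    · have hn : [z 4, z 5, z 6, z 0, w0, r, w4].Nodup := by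
        simp only [List.nodup_cons, List.mem_cons, List.not_mem_nil, or_false, not_or,
          List.nodup_nil, not_false_eq_true, and_true]
        refine ⟨⟨?_, ?_, ?_, ?_, ?_, ?_⟩, ⟨?_, ?_, ?_, ?_, ?_⟩, ⟨?_, ?_, ?_, ?_⟩, ⟨?_, ?_, ?_⟩,
          ⟨?_, ?_⟩, ?_⟩ <;> assumption
      have h1 : List.ofFn (![z 4, z 5, z 6, z 0, w0, r, w4] : Fin 7 → V) =
          [z 4, z 5, z 6, z 0, w0, r, w4] := rfl
      exact List.nodup_ofFn.1 (by rw [h1]; exact hn)
    · show ∀ k : Fin 7, G.Adj ((![z 4, z 5, z 6, z 0, w0, r, w4] : Fin 7 → V) k)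
        ((![z 4, z 5, z 6, z 0, w0, r, w4] : Fin 7 → V) (k + 1))
      intro k
      fin_cases k
      · exact a45
      · exact a56
      · exact a60
      · exact d2
      · exact d1.symm
      · exact b1
      · exact b2.symm
    · exact rne2.symm

end Pool.Agent.helper91.SI
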